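import Pool.Agent.P.MP_881548_lc.Defs
import Pool.Agent.Lib.ETR.Cluster

/-! Drawings in general position and orientation determinants. -/

namespace Pool.Agent.P.MP_881548_lc

open Filter Topology Pool.Agent.Lib.ETR

abbrev Pt := ℝ × ℝ

def dt (p q r : Pt) : ℝ := (q.1 - p.1) * (r.2 - p.2) - (q.2 - p.2) * (r.1 - p.1)

def Sep (u v a b : Pt) : Prop := ∃ α β γ : ℝ, 0 < α * u.1 + β * u.2 + γ ∧
  0 < α * v.1 + β * v.2 + γ ∧ α * a.1 + β * a.2 + γ < 0 ∧ α * b.1 + β * b.2 + γ < 0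

def NC (u v a b : Pt) : Prop := 0 < dt u v a * dt u v b ∨ 0 < dt a b u * dt a b v

theorem Sep.symm {u v a b : Pt} (h : Sep u v a b) : Sep a b u v := by
  obtain ⟨α, β, γ, h1, h2, h3, h4⟩ := h
  exact ⟨-α, -β, -γ, by linarith, by linarith, by linarith, by linarith⟩

theorem Sep.swap' {u v a b : Pt} (h : Sep u v a b) : Sep u v b a := by
  obtain ⟨α, β, γ, h1, h2, h3, h4⟩ := h
  exact ⟨α, β, γ, h1, h2, h4, h3⟩

theorem sep_of_pos {u v a b : Pt} (h : 0 < dt u v a * dt u v b) : Sep u v a b := by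
  set A := dt u v a with hA
  set B := dt u v b with hB
  have hA2 : 0 < A * A := by
    rcases lt_trichotomy A 0 with h1 | h1 | h1
    · exact mul_pos_of_neg_of_neg h1 h1
    · rw [h1, zero_mul] at h; exact absurd h (lt_irrefl _)
    · exact mul_pos h1 h1
  have hm : 0 < min (A * A) (A * B) := lt_min hA2 h
  have h1 := min_le_left (A * A) (A * B)
  have h2 := min_le_right (A * A) (A * B)
  have key : ∀ z : Pt, A * (v.2 - u.2) * z.1 + -(A * (v.1 - u.1)) * z.2 +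
      (A * ((v.1 - u.1) * u.2 - (v.2 - u.2) * u.1) + min (A * A) (A * B) / 2) =
      min (A * A) (A * B) / 2 - A * dt u v z := fun z => by simp only [dt]; ring
  refine ⟨A * (v.2 - u.2), -(A * (v.1 - u.1)),
    A * ((v.1 - u.1) * u.2 - (v.2 - u.2) * u.1) + min (A * A) (A * B) / 2, ?_, ?_, ?_, ?_⟩ <;>
    rw [key]
  · rw [show dt u v u = 0 by simp [dt]]; linarith
  · rw [show dt u v v = 0 by simp only [dt]; ring]; linarith
  · linarith
  · linarith

theorem NC.sep {u v a b : Pt} (h : NC u v a b) : Sep u v a b :=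
  h.elim sep_of_pos fun h => (sep_of_pos h).symm

theorem Sep.nc {u v a b : Pt} (h : Sep u v a b) (h1 : dt u v a ≠ 0) (h2 : dt u v b ≠ 0)
    (h3 : dt a b u ≠ 0) (h4 : dt a b v ≠ 0) : NC u v a b := by
  obtain ⟨α, β, γ, a1, a2, a3, a4⟩ := h
  by_contra hn
  simp only [NC, not_or, not_lt] at hn
  have b1 := lt_of_le_of_ne hn.1 (mul_ne_zero h1 h2)
  have b2 := lt_of_le_of_ne hn.2 (mul_ne_zero h3 h4)
  have e1 : dt a b v * (α * u.1 + β * u.2 + γ) - dt a b u * (α * v.1 + β * v.2 + γ) +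
      dt u v b * (α * a.1 + β * a.2 + γ) - dt u v a * (α * b.1 + β * b.2 + γ) = 0 := by
    simp only [dt]; ring
  have e2 : dt a b v - dt a b u + dt u v b - dt u v a = 0 := by simp only [dt]; ring
  rcases mul_neg_iff.1 b1 with ⟨c1, c2⟩ | ⟨c1, c2⟩ <;> rcases mul_neg_iff.1 b2 with ⟨c3, c4⟩ | ⟨c3, c4⟩
  · linarith
  · nlinarith [mul_pos c4 a1, mul_pos (neg_pos.2 c3) a2, mul_pos_of_neg_of_neg c2 a3,
      mul_pos c1 (neg_pos.2 a4)]
  · nlinarith [mul_pos (neg_pos.2 c4) a1, mul_pos c3 a2, mul_pos c2 (neg_pos.2 a3),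
      mul_pos_of_neg_of_neg c1 a4]
  · linarith

theorem Sep.not_mem {u v a b z : Pt} (h : Sep u v a b) (h1 : z ∈ segment ℝ u v)
    (h2 : z ∈ segment ℝ a b) : False := by
  obtain ⟨α, β, γ, a1, a2, a3, a4⟩ := h
  obtain ⟨s, t, hs, ht, hst, rfl⟩ := h1
  obtain ⟨s', t', hs', ht', hst', h3⟩ := h2
  have e1 := congrArg Prod.fst h3
  have e2 := congrArg Prod.snd h3
  simp only [Prod.fst_add, Prod.snd_add, Prod.smul_fst, Prod.smul_snd, smul_eq_mul] at e1 e2
  have e3 : s * (α * u.1 + β * u.2 + γ) + t * (α * v.1 + β * v.2 + γ) =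
      s' * (α * a.1 + β * a.2 + γ) + t' * (α * b.1 + β * b.2 + γ) := by
    linear_combination -α * e1 - β * e2 + γ * hst - γ * hst'
  have e4 : 0 < s * (α * u.1 + β * u.2 + γ) + t * (α * v.1 + β * v.2 + γ) := by
    rcases hs.lt_or_eq with h | h
    · nlinarith [mul_pos h a1, mul_nonneg ht a2.le]
    · rw [← h, show t = 1 by linarith]; linarith
  nlinarith [mul_nonneg hs' (neg_pos.2 a3).le, mul_nonneg ht' (neg_pos.2 a4).le]

theorem sep_of_disjoint {u v a b : Pt} (h : Disjoint (segment ℝ u v) (segment ℝ a b)) :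
    Sep u v a b := by
  have hc : ∀ x y : Pt, IsCompact (segment ℝ x y) := fun x y => by
    rw [segment_eq_image]; exact isCompact_Icc.image (by fun_prop)
  obtain ⟨f, s, t, h1, h2, h3⟩ := geometric_hahn_banach_compact_closed (convex_segment u v)
    (hc u v) (convex_segment a b) (hc a b).isClosed h
  have hf : ∀ z : Pt, -f (1, 0) * z.1 + -f (0, 1) * z.2 + s = s - f z := fun z => by
    have : z = z.1 • ((1 : ℝ), (0 : ℝ)) + z.2 • ((0 : ℝ), (1 : ℝ)) := by ext <;> simp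
    conv_rhs => rw [this, map_add, map_smul, map_smul]
    simp only [smul_eq_mul]; ring
  refine ⟨-f (1, 0), -f (0, 1), s, ?_, ?_, ?_, ?_⟩ <;> rw [hf]
  · linarith [h1 u (left_mem_segment _ _ _)]
  · linarith [h1 v (right_mem_segment _ _ _)]
  · linarith [h3 a (left_mem_segment _ _ _)]
  · linarith [h3 b (right_mem_segment _ _ _)]

theorem Sep.eventually {u v a b : ℝ → Pt} (hu : Continuous u) (hv : Continuous v)
    (ha : Continuous a) (hb : Continuous b) (h : Sep (u 0) (v 0) (a 0) (b 0)) :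
    ∀ᶠ ε in 𝓝[>] (0 : ℝ), Sep (u ε) (v ε) (a ε) (b ε) := by
  obtain ⟨α, β, γ, h1, h2, h3, h4⟩ := h
  have hc : ∀ w : ℝ → Pt, Continuous w → ContinuousAt (fun ε => α * (w ε).1 + β * (w ε).2 + γ) 0 :=
    fun w hw => by fun_prop
  refine Eventually.filter_mono nhdsWithin_le_nhds ?_
  filter_upwards [continuousAt_const.eventually_lt (hc u hu) h1,
    continuousAt_const.eventually_lt (hc v hv) h2, (hc a ha).eventually_lt continuousAt_const h3,
    (hc b hb).eventually_lt continuousAt_const h4] with ε a1 a2 a3 a4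
  exact ⟨α, β, γ, a1, a2, a3, a4⟩

theorem ev_ne (A B C : ℝ) (h : C ≠ 0 ∨ B ≠ 0) :
    ∀ᶠ ε in 𝓝[>] (0 : ℝ), A + B * ε + C * ε ^ 2 ≠ 0 := by
  have h1 : ∀ A B C : ℝ, A ≠ 0 → ∀ᶠ ε in 𝓝[>] (0 : ℝ), A + B * ε + C * ε ^ 2 ≠ 0 := by
    intro A B C hA
    have hc : Continuous fun ε : ℝ => A + B * ε + C * ε ^ 2 := by fun_prop
    exact (hc.continuousAt.eventually_ne (by simpa using hA)).filter_mono nhdsWithin_le_nhds
  by_cases hA : A = 0
  · by_cases hB : B = 0
    · filter_upwards [self_mem_nhdsWithin] with ε hε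
      have : 0 < ε := hε
      have hC := h.resolve_right (not_not.2 hB)
      rw [hA, hB]; simp [hC, this.ne']
    · filter_upwards [self_mem_nhdsWithin, h1 B C 0 hB] with ε hε h2
      have : 0 < ε := hε
      rw [show A + B * ε + C * ε ^ 2 = ε * (B + C * ε + 0 * ε ^ 2) by rw [hA]; ring]
      exact mul_ne_zero this.ne' h2
  · exact h1 A B C hA

variable {V : Type} {G F : SimpleGraph V} {p : V → Pt}

def GP (p : V → Pt) : Prop :=
  Function.Injective p ∧ ∀ a b c, a ≠ b → a ≠ c → b ≠ c → dt (p a) (p b) (p c) ≠ 0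

def SepD (G F : SimpleGraph V) (p : V → Pt) : Prop :=
  ∀ u v a b, F.Adj u v → G.Adj a b → u ≠ a → u ≠ b → v ≠ a → v ≠ b → Sep (p u) (p v) (p a) (p b)

def NCD (G F : SimpleGraph V) (p : V → Pt) : Prop :=
  ∀ u v a b, F.Adj u v → G.Adj a b → u ≠ a → u ≠ b → v ≠ a → v ≠ b → NC (p u) (p v) (p a) (p b)

theorem IsDrawing.sepD (h : IsDrawing G F p) : SepD G F p := by
  intro u v a b h1 h2 h3 h4 h5 h6
  refine sep_of_disjoint (Set.disjoint_left.2 fun z hz hz' => ?_)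
  obtain ⟨w, h7, h8, -⟩ := h.2.2 u v a b h1 h2 (by simp [h3, h4]) z ⟨hz, hz'⟩
  rcases h7 with rfl | rfl <;> rcases h8 with rfl | rfl <;> contradiction

theorem SepD.exists_gp [Finite V] (h : SepD G F p) : ∃ q, GP q ∧ NCD G F q := by
  obtain ⟨n, ⟨e⟩⟩ := Finite.exists_equiv_fin V
  let t : V → ℝ := fun v => (e v : ℕ)
  have ht : Function.Injective t := fun a b hab => e.injective (Fin.ext (Nat.cast_injective (R := ℝ) hab))
  let q : ℝ → V → Pt := fun ε v => ((p v).1 + ε * t v, (p v).2 + ε * t v ^ 2)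
  have hq : ∀ v, Continuous fun ε => q ε v := fun v => by fun_prop
  have hq0 : ∀ v, q 0 v = p v := fun v => by simp [q]
  have e1 : ∀ᶠ ε in 𝓝[>] (0 : ℝ), SepD G F (q ε) := by
    simp only [SepD, eventually_all]
    intro u v a b h1 h2 h3 h4 h5 h6
    refine Sep.eventually (hq u) (hq v) (hq a) (hq b) ?_
    simp only [hq0]
    exact h u v a b h1 h2 h3 h4 h5 h6
  have e2 : ∀ᶠ ε in 𝓝[>] (0 : ℝ), ∀ a b, a ≠ b → q ε a ≠ q ε b := by
    simp only [eventually_all]
    intro a b hab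
    filter_upwards [ev_ne ((p a).1 - (p b).1) (t a - t b) 0
      (Or.inr (sub_ne_zero.2 (ht.ne hab)))] with ε hε h1
    exact hε (by linear_combination congrArg Prod.fst h1)
  have e3 : ∀ᶠ ε in 𝓝[>] (0 : ℝ), ∀ a b c, a ≠ b → a ≠ c → b ≠ c →
      dt (q ε a) (q ε b) (q ε c) ≠ 0 := by
    simp only [eventually_all]
    intro a b c h1 h2 h3
    filter_upwards [ev_ne (dt (p a) (p b) (p c))
      (((p b).1 - (p a).1) * (t c ^ 2 - t a ^ 2) + (t b - t a) * ((p c).2 - (p a).2) -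
        ((p b).2 - (p a).2) * (t c - t a) - (t b ^ 2 - t a ^ 2) * ((p c).1 - (p a).1))
      ((t b - t a) * (t c - t a) * (t c - t b)) (Or.inl (mul_ne_zero (mul_ne_zero
        (sub_ne_zero.2 (ht.ne h1.symm)) (sub_ne_zero.2 (ht.ne h2.symm)))
        (sub_ne_zero.2 (ht.ne h3.symm))))] with ε hε h4
    refine hε ?_
    rw [← h4]
    simp only [dt, q]
    ring
  obtain ⟨ε, h1, h2, h3⟩ := (e1.and (e2.and e3)).exists
  refine ⟨q ε, ⟨fun a b hab => by_contra fun h4 => h2 a b h4 hab, h3⟩, ?_⟩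
  intro u v a b a1 a2 a3 a4 a5 a6
  exact (h1 u v a b a1 a2 a3 a4 a5 a6).nc (h3 _ _ _ a1.ne a3 a5) (h3 _ _ _ a1.ne a4 a6)
    (h3 _ _ _ a2.ne a3.symm a4.symm) (h3 _ _ _ a2.ne a5.symm a6.symm)

theorem seg_common {u v b z : Pt} (h : dt u v b ≠ 0) (h1 : z ∈ segment ℝ u v)
    (h2 : z ∈ segment ℝ u b) : z = u := by
  obtain ⟨s, t, -, -, hst, rfl⟩ := h1
  obtain ⟨s', t', -, -, hst', h3⟩ := h2
  have e1 := congrArg Prod.fst h3
  have e2 := congrArg Prod.snd h3
  simp only [Prod.fst_add, Prod.snd_add, Prod.smul_fst, Prod.smul_snd, smul_eq_mul] at e1 e2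
  obtain rfl : s = 1 - t := by linarith
  obtain rfl : s' = 1 - t' := by linarith
  have : t * dt u v b = 0 := by
    simp only [dt]
    linear_combination -(b.2 - u.2) * e1 + (b.1 - u.1) * e2
  rw [(mul_eq_zero.1 this).resolve_right h]
  simp

theorem GP.isDrawing (h : GP p) (hn : NCD G F p) : IsDrawing G F p := by
  refine ⟨h.1, fun u v w h1 h2 => ?_, fun u v a b h1 h2 h3 z hz => ?_⟩
  · by_contra h3
    push Not at h3
    refine h.2 u v w h1.ne h3.1.symm h3.2.symm ?_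
    obtain ⟨s, t, -, -, hst, h4⟩ := h2
    rw [← h4]
    obtain rfl : s = 1 - t := by linarith
    simp [dt]; ring
  · obtain ⟨z1, z2⟩ := hz
    have z3 : z ∈ segment ℝ (p v) (p u) := by rwa [segment_symm]
    have z4 : z ∈ segment ℝ (p b) (p a) := by rwa [segment_symm]
    by_cases a1 : u = a
    · subst a1
      have : v ≠ b := fun h4 => h3 (by rw [h4])
      exact ⟨u, .inl rfl, .inl rfl, seg_common (h.2 u v b h1.ne h2.ne this) z1 z2⟩
    by_cases a2 : u = b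
    · subst a2
      have : v ≠ a := fun h4 => h3 (by rw [h4, Sym2.eq_swap])
      exact ⟨u, .inl rfl, .inr rfl, seg_common (h.2 u v a h1.ne a1 this) z1 z4⟩
    by_cases a3 : v = a
    · subst a3
      exact ⟨v, .inr rfl, .inl rfl, seg_common (h.2 v u b h1.ne' h2.ne a2) z3 z2⟩
    by_cases a4 : v = b
    · subst a4
      exact ⟨v, .inr rfl, .inr rfl, seg_common (h.2 v u a h1.ne' a3 a1) z3 z4⟩
    exact ((hn u v a b h1 h2 a1 a2 a3 a4).sep.not_mem z1 z2).elim

theorem drawable_iff [Finite V] : (∃ p, IsDrawing G F p) ↔ ∃ p, GP p ∧ NCD G F p :=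
  ⟨fun ⟨_, h⟩ => h.sepD.exists_gp, fun ⟨p, h1, h2⟩ => ⟨p, h1.isDrawing h2⟩⟩

end Pool.Agent.P.MP_881548_lc
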