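import Pool.Agent.P.MP_881548_lc.Geom
import Pool.Agent.P.MP_881548_lc.Gadget
import Pool.Agent.Lib.ETR.Sign

/-! Correctness of the reduction on vertex labels. -/

namespace Pool.Agent.P.MP_881548_lc

open Filter Topology Pool.Agent.Lib.ETR Pool.Agent.Lib.OrderType

variable {κ : Type}

/-- `(b, 0, 0)` is the point `b`; `(a, t, i)` with `t = 1, 2` is the vertex `i` of the `t`-th
gadget of the line `a`. -/
abbrev Lab (κ : Type) := κ × ℕ × ℕ

def Mem (S : Asg κ) (x : Lab κ) : Prop :=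
  (∃ c ∈ S, x = (c.2.2, 0, 0)) ∨ ∃ c ∈ S, x.1 = c.2.1 ∧ (x.2.1 = 1 ∨ x.2.1 = 2) ∧ x.2.2 < 9

def Inner (l : List (ℕ × ℕ)) (u v : Lab κ) : Prop :=
  u.1 = v.1 ∧ u.2.1 = v.2.1 ∧ u.2.1 ≠ 0 ∧ (u.2.2, v.2.2) ∈ l

def Link (S : Asg κ) (u v : Lab κ) : Prop :=
  u.2.1 ≠ 0 ∧ v.2.1 = 0 ∧ ∃ s, (s, u.1, v.1) ∈ S ∧ u.2.2 ∈ sL s

def AdG (S : Asg κ) (u v : Lab κ) : Prop := Inner gL u v ∨ Link S u v ∨ Link S v u

theorem fL_lt : ∀ e ∈ fL, e.1 < 9 ∧ e.2 < 9 ∧ e.1 ≠ e.2 ∧ (e.2, e.1) ∈ fL ∧ e ∈ gL := by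
  decide +kernel

theorem gL_lt : ∀ e ∈ gL, e.1 < 9 ∧ e.2 < 9 ∧ e.1 ≠ e.2 ∧ (e.2, e.1) ∈ gL := by
  decide +kernel

theorem sL_lt : ∀ s, ∀ e ∈ sL s, e < 9 := by
  decide +kernel

theorem path_mem : ∀ m < 8, (m, m + 1) ∈ gL := by
  decide +kernel

theorem chi_of (n : ℕ) (Q : ℕ → Pt) (h : ∀ a b c, a < n → b < n → c < n → a ≠ b → a ≠ c →
    b ≠ c → dt (Q a) (Q b) (Q c) ≠ 0) : Chi n fun a b c => dt (Q a) (Q b) (Q c) where
  cyc a b c := by simp only [dt]; ring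
  swap a b c := by simp only [dt]; ring
  four t a b c := by simp only [dt]; ring
  gp t a b c d := by simp only [dt]; ring
  ne := h

def In (z a b c : Pt) : Prop :=
  (0 < dt a b z ∧ 0 < dt b c z ∧ 0 < dt c a z) ∨ (dt a b z < 0 ∧ dt b c z < 0 ∧ dt c a z < 0)

theorem In.min_lt {z a b c : Pt} (h : In z a b c) : min a.1 (min b.1 c.1) < z.1 := by
  by_contra hn
  simp only [not_lt, le_min_iff] at hn
  obtain ⟨h1, h2, h3⟩ := hn
  have e : dt b c z * (a.1 - z.1) + dt c a z * (b.1 - z.1) + dt a b z * (c.1 - z.1) = 0 := by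
    simp only [dt]; ring
  have key : a.1 = z.1 ∧ b.1 = z.1 := by
    rcases h with ⟨a1, a2, a3⟩ | ⟨a1, a2, a3⟩
    · have b1 := mul_nonneg a2.le (sub_nonneg.2 h1)
      have b2 := mul_nonneg a3.le (sub_nonneg.2 h2)
      have b3 := mul_nonneg a1.le (sub_nonneg.2 h3)
      exact ⟨sub_eq_zero.1 ((mul_eq_zero.1 (by linarith)).resolve_left a2.ne'),
        sub_eq_zero.1 ((mul_eq_zero.1 (by linarith)).resolve_left a3.ne')⟩
    · have b1 := mul_nonneg (neg_pos.2 a2).le (sub_nonneg.2 h1)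
      have b2 := mul_nonneg (neg_pos.2 a3).le (sub_nonneg.2 h2)
      have b3 := mul_nonneg (neg_pos.2 a1).le (sub_nonneg.2 h3)
      exact ⟨sub_eq_zero.1 ((mul_eq_zero.1 (by linarith)).resolve_left a2.ne),
        sub_eq_zero.1 ((mul_eq_zero.1 (by linarith)).resolve_left a3.ne)⟩
  have : dt a b z = 0 := by simp [dt, key.1, key.2]
  rcases h with h | h <;> linarith [h.1]

section sound

variable {S : Asg κ} {P : Lab κ → Pt}
  (hgp : ∀ a b c, Mem S a → Mem S b → Mem S c → a ≠ b → a ≠ c → b ≠ c →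
    dt (P a) (P b) (P c) ≠ 0)
  (hnc : ∀ u v a b, Mem S u → Mem S v → Mem S a → Mem S b → Inner fL u v → AdG S a b →
    u ≠ a → u ≠ b → v ≠ a → v ≠ b → NC (P u) (P v) (P a) (P b))
include hgp hnc

theorem in_step {c : Bool × κ × κ} (hc : c ∈ S) {t : ℕ} (ht : t = 1 ∨ t = 2) {i j k : ℕ}
    (h1 : (i, j) ∈ fL) (h2 : (j, k) ∈ fL) (h3 : (k, i) ∈ fL) {z z' : Lab κ} (hz : Mem S z)
    (hz' : Mem S z') (had : AdG S z z') (hne : z ≠ z') (hz1 : z.2.1 ≠ t) (hz2 : z'.2.1 ≠ t)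
    (h : In (P z) (P (c.2.1, t, i)) (P (c.2.1, t, j)) (P (c.2.1, t, k))) :
    In (P z') (P (c.2.1, t, i)) (P (c.2.1, t, j)) (P (c.2.1, t, k)) := by
  let Q : ℕ → Lab κ := fun n => [(c.2.1, t, i), (c.2.1, t, j), (c.2.1, t, k), z, z'].getD n z
  obtain ⟨a1, a2, a3, a4, -⟩ := fL_lt _ h1
  obtain ⟨-, a5, a6, a7, -⟩ := fL_lt _ h2
  obtain ⟨-, -, a8, a9, -⟩ := fL_lt _ h3
  have b1 : ∀ m, (c.2.1, t, m) ≠ z := fun m h => hz1 (h ▸ rfl)
  have b2 : ∀ m, (c.2.1, t, m) ≠ z' := fun m h => hz2 (h ▸ rfl)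
  have hm : ∀ n < 5, Mem S (Q n) := by
    intro n hn
    interval_cases n
    · exact .inr ⟨c, hc, rfl, ht, a1⟩
    · exact .inr ⟨c, hc, rfl, ht, a2⟩
    · exact .inr ⟨c, hc, rfl, ht, a5⟩
    · exact hz
    · exact hz'
  have hd : ∀ n < 5, ∀ m < 5, n ≠ m → Q n ≠ Q m := by
    intro n hn m hm hnm
    simp only at a3 a6 a8
    interval_cases n <;> interval_cases m <;>
      simp [Q, a3, a6, a8, a3.symm, a6.symm, a8.symm, b1, b2, (b1 _).symm, (b2 _).symm, hne,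
        hne.symm] at hnm ⊢
  refine edge (chi_of 5 (fun n => P (Q n)) fun a b c ha hb hc h4 h5 h6 =>
    hgp _ _ _ (hm a ha) (hm b hb) (hm c hc) (hd a ha b hb h4) (hd a ha c hc h5) (hd b hb c hc h6))
    (fun a ha b hb hab => hnc _ _ _ _ (hm a (by omega)) (hm b (by omega)) hz hz' ?_ had
      (hd a (by omega) 3 (by omega) (by omega)) (hd a (by omega) 4 (by omega) (by omega))
      (hd b (by omega) 3 (by omega) (by omega)) (hd b (by omega) 4 (by omega) (by omega))) h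
  have ht0 : t ≠ 0 := by omega
  interval_cases a <;> interval_cases b <;> first
    | exact absurd rfl hab
    | exact ⟨rfl, rfl, ht0, by assumption⟩

theorem in_all {c : Bool × κ × κ} (hc : c ∈ S) {t t' : ℕ} (ht : t = 1 ∨ t = 2)
    (ht' : t' = 1 ∨ t' = 2) (htt : t' ≠ t) {i j k : ℕ}
    (h1 : (i, j) ∈ fL) (h2 : (j, k) ∈ fL) (h3 : (k, i) ∈ fL)
    (h : In (P (c.2.2, 0, 0)) (P (c.2.1, t, i)) (P (c.2.1, t, j)) (P (c.2.1, t, k))) :
    ∀ m < 9, In (P (c.2.1, t', m)) (P (c.2.1, t, i)) (P (c.2.1, t, j)) (P (c.2.1, t, k)) := by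
  intro m
  induction m with
  | zero =>
    intro _
    refine in_step hgp hnc hc ht h1 h2 h3 (.inl ⟨c, hc, rfl⟩) (.inr ⟨c, hc, rfl, ht', by simp⟩)
      (.inr (.inr ⟨by simp only; omega, rfl, c.1, hc, ?_⟩)) (by simp; omega) (by simp only; omega)
      htt h
    cases c.1 <;> simp [sL]
  | succ m ih =>
    intro hm
    exact in_step hgp hnc hc ht h1 h2 h3 (z := (c.2.1, t', m)) (z' := (c.2.1, t', m + 1))
      (.inr ⟨c, hc, rfl, ht', by simp only; omega⟩)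
      (.inr ⟨c, hc, rfl, ht', hm⟩) (.inl ⟨rfl, rfl, by simp only; omega, path_mem m (by omega)⟩)
      (by simp) htt htt (ih (by omega))

theorem exists_outer (a : κ) : ∃ t, (t = 1 ∨ t = 2) ∧ ∀ c ∈ S, c.2.1 = a → ∀ i j k,
    (i, j) ∈ fL → (j, k) ∈ fL → (k, i) ∈ fL →
    ¬ In (P (c.2.2, 0, 0)) (P (a, t, i)) (P (a, t, j)) (P (a, t, k)) := by
  by_contra hn
  push Not at hn
  obtain ⟨c, hc, rfl, i, j, k, h1, h2, h3, h4⟩ := hn 1 (.inl rfl)
  obtain ⟨c', hc', e, i', j', k', h1', h2', h3', h4'⟩ := hn 2 (.inr rfl)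
  have a1 := in_all hgp hnc hc (.inl rfl) (.inr rfl) (by norm_num) h1 h2 h3 h4
  rw [← e] at h4'
  have a2 := in_all hgp hnc hc' (.inr rfl) (.inl rfl) (by norm_num) h1' h2' h3' h4'
  rw [e] at a2
  have b1 := lt_min (a1 i' (fL_lt _ h1').1).min_lt
    (lt_min (a1 j' (fL_lt _ h2').1).min_lt (a1 k' (fL_lt _ h3').1).min_lt)
  have b2 := lt_min (a2 i (fL_lt _ h1).1).min_lt
    (lt_min (a2 j (fL_lt _ h2).1).min_lt (a2 k (fL_lt _ h3).1).min_lt)
  exact lt_asymm b1 b2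

theorem sound : S.Sat := by
  choose t ht ht' using exists_outer hgp hnc
  refine ⟨fun a => (dt (P (a, t a, 7)) (P (a, t a, 8)) (P (a, t a, 4)) *
      -((P (a, t a, 8)).2 - (P (a, t a, 7)).2),
    dt (P (a, t a, 7)) (P (a, t a, 8)) (P (a, t a, 4)) * ((P (a, t a, 8)).1 - (P (a, t a, 7)).1),
    dt (P (a, t a, 7)) (P (a, t a, 8)) (P (a, t a, 4)) *
      (((P (a, t a, 8)).2 - (P (a, t a, 7)).2) * (P (a, t a, 7)).1 -
        ((P (a, t a, 8)).1 - (P (a, t a, 7)).1) * (P (a, t a, 7)).2)),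
    fun b => P (b, 0, 0), fun c hc => ?_⟩
  let Q : ℕ → Lab κ := fun n => if n < 9 then (c.2.1, t c.2.1, n) else (c.2.2, 0, 0)
  have ht0 : t c.2.1 ≠ 0 := by have := ht c.2.1; omega
  have hQ : ∀ n < 9, Q n = (c.2.1, t c.2.1, n) := fun n hn => if_pos hn
  have hQ9 : Q 9 = (c.2.2, 0, 0) := rfl
  have hm : ∀ n < 10, Mem S (Q n) := by
    intro n hn
    by_cases h : n < 9
    · rw [hQ n h]; exact .inr ⟨c, hc, rfl, ht _, h⟩
    · rw [show n = 9 by omega]; exact .inl ⟨c, hc, rfl⟩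
  have hd : ∀ n < 10, ∀ m < 10, n ≠ m → Q n ≠ Q m := by
    intro n hn m hm hnm
    simp only [Q]
    split_ifs
    · simpa using hnm
    · simp [ht0]
    · simp [ht0.symm]
    · omega
  have key := side (chi_of 10 (fun n => P (Q n)) fun a b c ha hb hc h4 h5 h6 =>
    hgp _ _ _ (hm a ha) (hm b hb) (hm c hc) (hd a ha b hb h4) (hd a ha c hc h5) (hd b hb c hc h6))
    c.1 (fun i j k l h1 h2 h3 => by
      obtain ⟨a1, a2, -⟩ := fL_lt _ h1
      simp only [List.nodup_cons, List.mem_cons, List.not_mem_nil, or_false, not_or] at h3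
      obtain ⟨⟨-, b1, b2⟩, ⟨b3, b4⟩, -⟩ := h3
      have a3 : k < 10 ∧ l < 10 ∧ AdG S (Q k) (Q l) := by
        rcases h2 with h2 | ⟨h2, rfl⟩ | ⟨rfl, h2⟩
        · obtain ⟨a4, a5, -⟩ := gL_lt _ h2
          refine ⟨by omega, by omega, .inl ?_⟩
          rw [hQ k a4, hQ l a5]
          exact ⟨rfl, rfl, ht0, h2⟩
        · have := sL_lt _ _ h2
          refine ⟨by omega, by omega, .inr (.inl ?_)⟩
          rw [hQ k this]
          exact ⟨ht0, rfl, c.1, hc, h2⟩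
        · have := sL_lt _ _ h2
          refine ⟨by omega, by omega, .inr (.inr ?_)⟩
          rw [hQ l this]
          exact ⟨ht0, rfl, c.1, hc, h2⟩
      refine hnc _ _ _ _ (hm i (by omega)) (hm j (by omega)) (hm k a3.1) (hm l a3.2.1) ?_ a3.2.2
        (hd i (by omega) k a3.1 b1) (hd i (by omega) l a3.2.1 b2) (hd j (by omega) k a3.1 b3)
        (hd j (by omega) l a3.2.1 b4)
      rw [hQ i a1, hQ j a2]
      exact ⟨rfl, rfl, ht0, h1⟩)
    (fun i j k h1 h2 h3 h4 => ht' c.2.1 c hc rfl i j k h1 h2 h3 (by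
      rw [← hQ i (fL_lt _ h1).1, ← hQ j (fL_lt _ h2).1, ← hQ k (fL_lt _ h3).1]
      exact h4))
  rw [hQ 7 (by norm_num), hQ 8 (by norm_num), hQ 4 (by norm_num), hQ9] at key
  refine key.trans_eq ?_
  simp only [sg]
  congr 1
  rw [dt.eq_1 _ _ (P (c.2.2, 0, 0))]
  ring

end sound

end Pool.Agent.P.MP_881548_lc
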