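import Pool.Agent.Lib.ETR.Defs

namespace Pool.Agent.P.MP_881548_lc

/-- `p` is a straight-line drawing of `G` in which no edge of `F` is crossed by an edge of `G`. -/
def IsDrawing {V : Type} (G F : SimpleGraph V) (p : V → ℝ × ℝ) : Prop :=
  Function.Injective p ∧
  (∀ u v w, G.Adj u v → p w ∈ segment ℝ (p u) (p v) → w = u ∨ w = v) ∧
  ∀ u v a b, F.Adj u v → G.Adj a b → s(u, v) ≠ s(a, b) →
    ∀ z ∈ segment ℝ (p u) (p v) ∩ segment ℝ (p a) (p b),
      ∃ w, (w = u ∨ w = v) ∧ (w = a ∨ w = b) ∧ z = p w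

open Classical in
/-- The adjacency matrix, as a list of rows. -/
noncomputable def adjMatrix {n : ℕ} (G : SimpleGraph (Fin n)) : List (List Bool) :=
  List.ofFn fun i => List.ofFn fun j => decide (G.Adj i j)

open Classical in
/-- The language of the problem: codes of pairs `(G, F)`, `F` a set of edges of `G`, that have
such a drawing. -/
noncomputable def GPP : N68a2faeb.DecisionProblem := fun x =>
  decide (∃ (n : ℕ) (G F : SimpleGraph (Fin n)), F ≤ G ∧
    x = N487b59b3.bitEncode (adjMatrix G, adjMatrix F) ∧ ∃ p, IsDrawing G F p)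

end Pool.Agent.P.MP_881548_lc
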