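import Pool.Agent.P.MP_881548_lc.Core

namespace Pool.Agent.P.MP_881548_lc

open Filter Topology Pool.Agent.Lib.ETR Pool.Agent.Lib.OrderType

variable {κ : Type}

/-! ### The layout -/

def sX (i : ℕ) : ℤ := [0, 4, 6, 11, 7, 4, 0, 1, 1].getD i 0

def sY (i : ℕ) : ℤ := [13, 9, 8, 6, 5, 3, 0, 5, 8].getD i 0

def zd (i j k : ℕ) : ℤ := (sX j - sX i) * (sY k - sY i) - (sY j - sY i) * (sX k - sX i)

theorem shI : ∀ e ∈ fL, ∀ f ∈ gL, e.1 ≠ f.1 → e.1 ≠ f.2 → e.2 ≠ f.1 → e.2 ≠ f.2 →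
    0 < zd e.1 e.2 f.1 * zd e.1 e.2 f.2 ∨ 0 < zd f.1 f.2 e.1 * zd f.1 f.2 e.2 := by
  decide +kernel

theorem shV : ∀ s, ∀ e ∈ fL, ∀ k ∈ sL s, e.1 ≠ k → e.2 ≠ k →
    0 < zd e.1 e.2 k * (-(sY e.2 - sY e.1) * (bif s then 1 else -1)) ∨
      0 < (sY e.1 - sY k) * (sY e.2 - sY k) := by
  decide +kernel

def sp (δ : ℝ) (i : ℕ) : Pt := (δ ^ 2 * sX i, δ * sY i)

theorem dt_sp (δ : ℝ) (i j k : ℕ) : dt (sp δ i) (sp δ j) (sp δ k) = δ ^ 3 * zd i j k := by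
  simp only [dt, sp, zd]; push_cast; ring

theorem ev_mul_pos (k : ℕ) {f : ℝ → ℝ} (hf : Continuous f) (h : 0 < f 0) :
    ∀ᶠ δ in 𝓝[>] (0 : ℝ), 0 < δ ^ k * f δ := by
  filter_upwards [self_mem_nhdsWithin, (continuousAt_const.eventually_lt hf.continuousAt
    h).filter_mono nhdsWithin_le_nhds] with δ h1 h2
  exact mul_pos (pow_pos h1 _) h2

theorem nc_inner {i j k l : ℕ} (h1 : (i, j) ∈ fL) (h2 : (k, l) ∈ gL) (a1 : i ≠ k) (a2 : i ≠ l)
    (a3 : j ≠ k) (a4 : j ≠ l) {δ : ℝ} (hδ : 0 < δ) :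
    NC (sp δ i) (sp δ j) (sp δ k) (sp δ l) := by
  simp only [NC, dt_sp]
  have h6 : 0 < δ ^ 3 * δ ^ 3 := by positivity
  rcases shI _ h1 _ h2 a1 a2 a3 a4 with h | h
  · have : (0 : ℝ) < zd i j k * zd i j l := by exact_mod_cast h
    left; nlinarith [mul_pos h6 this]
  · have : (0 : ℝ) < zd k l i * zd k l j := by exact_mod_cast h
    right; nlinarith [mul_pos h6 this]

theorem nc_link {i j k : ℕ} {s : Bool} (h1 : (i, j) ∈ fL) (h2 : k ∈ sL s) (a1 : i ≠ k)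
    (a2 : j ≠ k) {z : Pt} (hz : 0 < sg s * z.1) :
    ∀ᶠ δ in 𝓝[>] (0 : ℝ), NC (sp δ i) (sp δ j) (sp δ k) z := by
  rcases shV s _ h1 _ h2 a1 a2 with h | h
  · have h3 : (0 : ℝ) < zd i j k * (-(sY j - sY i) * sg s) := by
      have := (Int.cast_pos (R := ℝ)).2 h
      cases s <;> simpa [sg] using this
    have hs : sg s * sg s = 1 := by cases s <;> simp
    filter_upwards [ev_mul_pos 4 (f := fun δ => zd i j k * (δ * (sX j - sX i) * (z.2 - δ * sY i) -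
      (sY j - sY i) * (z.1 - δ ^ 2 * sX i))) (by fun_prop) (by
        refine (mul_pos h3 hz).trans_eq ?_
        linear_combination (zd i j k * -(sY j - sY i) * z.1 : ℝ) * hs)] with δ hδ
    left
    rw [dt_sp]
    refine hδ.trans_eq ?_
    simp only [dt, sp]; ring
  · have h3 : (0 : ℝ) < (sY i - sY k) * (sY j - sY k) := by exact_mod_cast h
    have h4 : z.1 ≠ 0 := fun h => by simp [h] at hz
    filter_upwards [ev_mul_pos 2 (f := fun δ =>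
      ((z.1 - δ ^ 2 * sX k) * (sY i - sY k) - (z.2 - δ * sY k) * (δ * (sX i - sX k))) *
      ((z.1 - δ ^ 2 * sX k) * (sY j - sY k) - (z.2 - δ * sY k) * (δ * (sX j - sX k))))
      (by fun_prop) (by
        refine (mul_pos (sq_pos_of_ne_zero h4) h3).trans_eq ?_
        ring)] with δ hδ
    right
    refine hδ.trans_eq ?_
    simp only [dt, sp]; ring

theorem Sep.pull {u v a b : Pt} (A B C T : ℝ)
    (h : Sep (A * u.1 + B * u.2 + C, u.2 + T) (A * v.1 + B * v.2 + C, v.2 + T)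
      (A * a.1 + B * a.2 + C, a.2 + T) (A * b.1 + B * b.2 + C, b.2 + T)) : Sep u v a b := by
  obtain ⟨α, β, γ, h1, h2, h3, h4⟩ := h
  exact ⟨α * A, α * B + β, α * C + β * T + γ, by linarith, by linarith, by linarith, by linarith⟩

theorem exists_lines {S : Asg κ} (h : S.Sat) : ∃ (p : κ → Pt) (T : ℝ) (A B C : κ × ℕ → ℝ),
    (∀ c ∈ S, 0 < (p c.2.2).2 + T) ∧
    (∀ c ∈ S, ∀ t ∈ [1, 2], A (c.2.1, t) ≠ 0 ∧
      0 < sg c.1 * (A (c.2.1, t) * (p c.2.2).1 + B (c.2.1, t) * (p c.2.2).2 + C (c.2.1, t))) ∧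
    ∀ c ∈ S, ∀ t ∈ [1, 2], ∀ c' ∈ S, ∀ t' ∈ [1, 2], (c.2.1, t) ≠ (c'.2.1, t') →
      (B (c.2.1, t) * T - C (c.2.1, t)) / A (c.2.1, t) ≠
        (B (c'.2.1, t') * T - C (c'.2.1, t')) / A (c'.2.1, t') := by
  classical
  obtain ⟨l, p, h⟩ := h
  obtain ⟨T, hT⟩ : ∃ T : ℝ, ∀ c ∈ S, 0 < (p c.2.2).2 + T := by
    refine ⟨(S.map fun c => |(p c.2.2).2|).sum + 1, fun c hc => ?_⟩
    have := List.single_le_sum (l := S.map fun c => |(p c.2.2).2|) (fun a ha => by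
      obtain ⟨c, -, rfl⟩ := List.mem_map.1 ha
      exact abs_nonneg _) _ (List.mem_map_of_mem hc)
    linarith [neg_abs_le (p c.2.2).2]
  let L : List (κ × ℕ) := S.flatMap fun c => [(c.2.1, 1), (c.2.1, 2)]
  have hL : ∀ c ∈ S, ∀ t ∈ [1, 2], (c.2.1, t) ∈ L := fun c hc t ht =>
    List.mem_flatMap.2 ⟨c, hc, by simpa using ht⟩
  let τ : κ × ℕ → ℝ := fun g => L.idxOf g
  have e1 : ∀ᶠ ε in 𝓝[>] (0 : ℝ), ∀ c ∈ S, ∀ t ∈ [1, 2], (l c.2.1).1 + ε ≠ 0 ∧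
      0 < sg c.1 * (((l c.2.1).1 + ε) * (p c.2.2).1 + (l c.2.1).2.1 * (p c.2.2).2 +
        ((l c.2.1).2.2 + ε * τ (c.2.1, t))) := by
    refine ev_list _ fun c hc => ev_list _ fun t _ => Eventually.and ?_ ?_
    · simpa using ev_ne (l c.2.1).1 1 0 (.inr one_ne_zero)
    · simpa using ev_mul_pos 0 (f := fun ε => sg c.1 * (((l c.2.1).1 + ε) * (p c.2.2).1 +
        (l c.2.1).2.1 * (p c.2.2).2 + ((l c.2.1).2.2 + ε * τ (c.2.1, t)))) (by fun_prop)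
        (by simpa using h c hc)
  have e2 : ∀ᶠ ε in 𝓝[>] (0 : ℝ), ∀ c ∈ S, ∀ t ∈ [1, 2], ∀ c' ∈ S, ∀ t' ∈ [1, 2],
      (c.2.1, t) ≠ (c'.2.1, t') →
      ((l c.2.1).2.1 * T - ((l c.2.1).2.2 + ε * τ (c.2.1, t))) * ((l c'.2.1).1 + ε) ≠
      ((l c'.2.1).2.1 * T - ((l c'.2.1).2.2 + ε * τ (c'.2.1, t'))) * ((l c.2.1).1 + ε) := by
    refine ev_list _ fun c hc => ev_list _ fun t ht => ev_list _ fun c' hc' => ev_list _
      fun t' ht' => eventually_all.2 fun hne => ?_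
    have h1 : τ (c'.2.1, t') - τ (c.2.1, t) ≠ 0 := fun h2 =>
      hne ((List.idxOf_inj (hL c' hc' t' ht')).1 (Nat.cast_injective (R := ℝ) (sub_eq_zero.1 h2))).symm
    filter_upwards [ev_ne (((l c.2.1).2.1 * T - (l c.2.1).2.2) * (l c'.2.1).1 -
      ((l c'.2.1).2.1 * T - (l c'.2.1).2.2) * (l c.2.1).1)
      (((l c.2.1).2.1 * T - (l c.2.1).2.2) - τ (c.2.1, t) * (l c'.2.1).1 -
        ((l c'.2.1).2.1 * T - (l c'.2.1).2.2) + τ (c'.2.1, t') * (l c.2.1).1) _ (.inl h1)]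
      with ε hε h2
    exact hε (by linear_combination h2)
  obtain ⟨ε, h1, h2⟩ := (e1.and e2).exists
  refine ⟨p, T, fun g => (l g.1).1 + ε, fun g => (l g.1).2.1, fun g => (l g.1).2.2 + ε * τ g, hT,
    h1, fun c hc t ht c' hc' t' ht' hne h3 => h2 c hc t ht c' hc' t' ht' hne ?_⟩
  exact (div_eq_div_iff (h1 c hc t ht).1 (h1 c' hc' t' ht').1).1 h3

theorem complete {S : Asg κ} (h : S.Sat) (vs : List (Lab κ)) (hvs : ∀ x ∈ vs, Mem S x) :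
    ∃ P : Lab κ → Pt, ∀ u ∈ vs, ∀ v ∈ vs, ∀ a ∈ vs, ∀ b ∈ vs, Inner fL u v → AdG S a b →
      u ≠ a → u ≠ b → v ≠ a → v ≠ b → Sep (P u) (P v) (P a) (P b) := by
  obtain ⟨p, T, A, B, C, h1, h2, h3⟩ := exists_lines h
  let P : ℝ → Lab κ → Pt := fun δ x => if x.2.1 = 0 then p x.1 else
    ((δ ^ 2 * sX x.2.2 - B (x.1, x.2.1) * (δ * sY x.2.2 - T) - C (x.1, x.2.1)) / A (x.1, x.2.1),
      δ * sY x.2.2 - T)
  have hc : ∀ x, Continuous fun δ => P δ x := fun x => by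
    simp only [P]
    split_ifs <;> fun_prop
  have hg : ∀ x, Mem S x → x.2.1 ≠ 0 → ∃ c ∈ S, x.1 = c.2.1 ∧ x.2.1 ∈ [1, 2] := by
    rintro x (⟨c, -, rfl⟩ | ⟨c, hc, a1, a2, -⟩) h4
    · exact absurd rfl h4
    · exact ⟨c, hc, a1, by simpa using a2⟩
  have hP0 : ∀ x : Lab κ, x.2.1 ≠ 0 → P 0 x =
      ((B (x.1, x.2.1) * T - C (x.1, x.2.1)) / A (x.1, x.2.1), -T) := fun x hx => by
    simp [P, hx]
  have hne : ∀ x y, Mem S x → Mem S y → x.2.1 ≠ 0 → y.2.1 ≠ 0 → (x.1, x.2.1) ≠ (y.1, y.2.1) →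
      (P 0 x).1 ≠ (P 0 y).1 := by
    intro x y hx hy a1 a2 a3
    obtain ⟨c, hc, b1, b2⟩ := hg x hx a1
    obtain ⟨c', hc', b3, b4⟩ := hg y hy a2
    rw [hP0 x a1, hP0 y a2]
    rw [b1, b3] at a3 ⊢
    exact h3 c hc _ b2 c' hc' _ b4 a3
  have hΦ : ∀ δ a t i, Mem S (a, t, i) → t ≠ 0 → (A (a, t) * (P δ (a, t, i)).1 +
      B (a, t) * (P δ (a, t, i)).2 + C (a, t), (P δ (a, t, i)).2 + T) = sp δ i := by
    intro δ a t i hx a1
    obtain ⟨c, hc, b1, b2⟩ := hg _ hx a1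
    have := (h2 c hc t b2).1
    rw [← b1] at this
    simp only [P, if_neg a1, sp, Prod.mk.injEq]
    constructor
    · field_simp; ring
    · ring
  have link : ∀ u v a b, Mem S u → Mem S v → Mem S a → Inner fL u v → Link S a b →
      u ≠ a → v ≠ a → ∀ᶠ δ in 𝓝[>] (0 : ℝ), Sep (P δ u) (P δ v) (P δ a) (P δ b) := by
    rintro ⟨g, t, i⟩ ⟨g', t', j⟩ ⟨g'', t'', k⟩ ⟨b, t0, i0⟩ hu hv ha ⟨rfl, rfl, a1, a2⟩
      ⟨a3, rfl, s, a4, a5⟩ a6 a7
    simp only at a1 a2 a3 a4 a5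
    have hb : ∀ δ, P δ (b, 0, i0) = p b := fun _ => rfl
    by_cases hgg : (g, t) = (g'', t'')
    · obtain ⟨rfl, rfl⟩ := Prod.mk.inj hgg
      obtain ⟨c, -, -, b2⟩ := hg _ hu a1
      filter_upwards [nc_link a2 a5 (by simpa using a6) (by simpa using a7)
        (z := (A (g, t) * (p b).1 + B (g, t) * (p b).2 + C (g, t), (p b).2 + T))
        (h2 _ a4 t b2).2] with δ hδ
      refine Sep.pull (A (g, t)) (B (g, t)) (C (g, t)) T ?_
      rw [hΦ δ g t i hu a1, hΦ δ g t j hv a1, hΦ δ g t k ha a1]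
      exact hδ.sep
    · refine Sep.eventually (hc _) (hc _) (hc _) (hc _) (NC.sep (.inr ?_))
      have b1 := hne _ _ hu ha a1 a3 hgg
      have b2 := h1 _ a4
      rw [hP0 (g, t, i) a1, hP0 (g'', t'', k) a3] at b1
      rw [hP0 (g, t, i) a1, hP0 (g, t, j) a1, hP0 (g'', t'', k) a3, hb]
      refine mul_self_pos.2 ?_
      simp only [dt, sub_self, mul_zero, zero_sub, neg_ne_zero, sub_neg_eq_add] at b1 b2 ⊢
      exact mul_ne_zero b2.ne' (sub_ne_zero.2 b1)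
  have key : ∀ᶠ δ in 𝓝[>] (0 : ℝ), ∀ u ∈ vs, ∀ v ∈ vs, ∀ a ∈ vs, ∀ b ∈ vs, Inner fL u v →
      AdG S a b → u ≠ a → u ≠ b → v ≠ a → v ≠ b → Sep (P δ u) (P δ v) (P δ a) (P δ b) := by
    refine ev_list _ fun u hu => ev_list _ fun v hv => ev_list _ fun a ha => ev_list _
      fun b hb => ?_
    simp only [eventually_all]
    rintro a1 (a2 | a2 | a2) a3 a4 a5 a6
    · have hu := hvs u hu
      have hv := hvs v hv
      have ha := hvs a ha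
      have hb := hvs b hb
      obtain ⟨g, t, i⟩ := u
      obtain ⟨g', t', j⟩ := v
      obtain ⟨g1, t1, k⟩ := a
      obtain ⟨g1', t1', l⟩ := b
      obtain ⟨rfl, rfl, b1, b2⟩ := a1
      obtain ⟨rfl, rfl, b3, b4⟩ := a2
      simp only at b1 b2 b3 b4
      by_cases hgg : (g, t) = (g1, t1)
      · obtain ⟨rfl, rfl⟩ := Prod.mk.inj hgg
        filter_upwards [self_mem_nhdsWithin] with δ hδ
        refine Sep.pull (A (g, t)) (B (g, t)) (C (g, t)) T ?_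
        rw [hΦ δ g t i hu b1, hΦ δ g t j hv b1, hΦ δ g t k ha b1, hΦ δ g t l hb b1]
        exact (nc_inner b2 b4 (by simpa using a3) (by simpa using a4) (by simpa using a5)
          (by simpa using a6) hδ).sep
      · refine Sep.eventually (hc _) (hc _) (hc _) (hc _) ?_
        have b5 := hne _ _ hu ha b1 b3 hgg
        rw [hP0 (g, t, i) b1, hP0 (g1, t1, k) b3] at b5
        rw [hP0 (g, t, i) b1, hP0 (g, t, j) b1, hP0 (g1, t1, k) b3, hP0 (g1, t1, l) b3]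
        simp only at b5 ⊢
        generalize (B (g, t) * T - C (g, t)) / A (g, t) = x at b5
        generalize (B (g1, t1) * T - C (g1, t1)) / A (g1, t1) = y at b5
        have b6 := mul_self_pos.2 (sub_ne_zero.2 b5)
        exact ⟨x - y, 0, -(x - y) * (x + y) / 2, by nlinarith, by nlinarith, by nlinarith,
          by nlinarith⟩
    · exact link u v a b (hvs u hu) (hvs v hv) (hvs a ha) a1 a2 a3 a5
    · exact (link u v b a (hvs u hu) (hvs v hv) (hvs b hb) a1 a2 a4 a6).mono fun _ h => h.swap'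
  obtain ⟨δ, hδ⟩ := key.exists
  exact ⟨P δ, hδ⟩

end Pool.Agent.P.MP_881548_lc
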