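import Pool.Agent.P.MP_881548_lc.Red

/-! Membership in the class. -/

namespace Pool.Agent.P.MP_881548_lc

open Pool.Agent.Lib.ETR Pool.Agent.Lib.NP N487b59b3 N68a2faeb N793a5b8e

def ent (A : List (List Bool)) (i j : ℕ) : Bool := (A.getD i []).getD j false

def chkGraph (A : List (List Bool)) : Bool :=
  (List.range A.length).all fun i => (A.getD i []).length == A.length && !ent A i i &&
    (List.range A.length).all fun j => !ent A i j || ent A j i

theorem length_adjMatrix {n : ℕ} (G : SimpleGraph (Fin n)) : (adjMatrix G).length = n := by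
  simp [adjMatrix]

theorem ent_adjMatrix {n : ℕ} (G : SimpleGraph (Fin n)) (i j : Fin n) :
    ent (adjMatrix G) i j = true ↔ G.Adj i j := by
  simp [ent, adjMatrix]

theorem chkGraph_adjMatrix {n : ℕ} (G : SimpleGraph (Fin n)) : chkGraph (adjMatrix G) = true := by
  simp only [chkGraph, length_adjMatrix, List.all_eq_true, List.mem_range, Bool.and_eq_true,
    beq_iff_eq, Bool.not_eq_true', Bool.or_eq_true]
  intro i hi
  refine ⟨⟨by simp [adjMatrix, hi], ?_⟩, fun j hj => ?_⟩
  · rw [← Bool.not_eq_true, ent_adjMatrix G ⟨i, hi⟩ ⟨i, hi⟩]; simp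
  · rw [← Bool.not_eq_true, ent_adjMatrix G ⟨i, hi⟩ ⟨j, hj⟩, ent_adjMatrix G ⟨j, hj⟩ ⟨i, hi⟩,
      G.adj_comm]
    tauto

theorem exists_graph {A : List (List Bool)} (h : chkGraph A = true) {n : ℕ} (hn : A.length = n) :
    ∃ G : SimpleGraph (Fin n), adjMatrix G = A := by
  subst hn
  simp only [chkGraph, List.all_eq_true, List.mem_range, Bool.and_eq_true,
    beq_iff_eq, Bool.not_eq_true', Bool.or_eq_true] at h
  refine ⟨⟨fun i j => ent A i j = true, ⟨fun i j hij => ?_⟩, ⟨fun i hi => ?_⟩⟩, ?_⟩
  · have := (h i i.2).2 j j.2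
    simpa [hij] using this
  · simp [(h i i.2).1.2] at hi
  · unfold adjMatrix
    apply List.ext_getElem (by simp)
    intro i h1 h2
    have h3 : A[i].length = A.length := by simpa [h2] using (h i h2).1.1
    apply List.ext_getElem (by simp [h3])
    intro j h4 h5
    simp [ent, h5]

def chkLe (A B : List (List Bool)) : Bool :=
  (List.range A.length).all fun i => (List.range A.length).all fun j => !ent B i j || ent A i j

theorem chkLe_iff {n : ℕ} (G F : SimpleGraph (Fin n)) :
    chkLe (adjMatrix G) (adjMatrix F) = true ↔ F ≤ G := by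
  simp only [chkLe, length_adjMatrix, List.all_eq_true, List.mem_range, Bool.or_eq_true,
    Bool.not_eq_true', ← Bool.not_eq_true]
  constructor
  · intro h i j hij
    have := h i i.2 j j.2
    rw [ent_adjMatrix, ent_adjMatrix] at this
    exact this.resolve_left (not_not.2 hij)
  · intro h i hi j hj
    rw [ent_adjMatrix G ⟨i, hi⟩ ⟨j, hj⟩, ent_adjMatrix F ⟨i, hi⟩ ⟨j, hj⟩]
    exact imp_iff_not_or.1 fun h' => h h'

def dtT (i j k : ℕ) : Term :=
  .add (.mul (.add (nv (j, true)) (.neg (nv (i, true)))) (.add (nv (k, false)) (.neg (nv (i, false)))))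
    (.neg (.mul (.add (nv (j, false)) (.neg (nv (i, false))))
      (.add (nv (k, true)) (.neg (nv (i, true))))))

def pos (w : List Bool → ℝ) (i : ℕ) : Pt := ((nv (i, true)).eval w, (nv (i, false)).eval w)

theorem eval_dtT (w : List Bool → ℝ) (i j k : ℕ) :
    (dtT i j k).eval w = dt (pos w i) (pos w j) (pos w k) := by
  simp only [dtT, Term.eval, dt, pos]
  ring

def bigR (n : ℕ) (f : ℕ → Formula) : Formula := bigAnd ((List.range n).map f)

theorem holds_bigR (w : List Bool → ℝ) (n : ℕ) (f : ℕ → Formula) :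
    (bigR n f).Holds w ↔ ∀ i : Fin n, (f i).Holds w := by
  simp only [bigR, holds_bigAnd, List.forall_mem_map, List.mem_range, Fin.forall_iff]

theorem holds_cond (w : List Bool → ℝ) (b : Bool) (φ : Formula) :
    (bif b then φ else tt).Holds w ↔ (b = true → φ.Holds w) := by
  cases b <;> simp

def body (A B : List (List Bool)) : Formula :=
  .and (.and
    (bigR A.length fun i => bigR A.length fun j => bif decide (i ≠ j) then
      .not (.and (.eq (nv (i, true)) (nv (j, true))) (.eq (nv (i, false)) (nv (j, false)))) else tt)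
    (bigR A.length fun i => bigR A.length fun j => bigR A.length fun k =>
      bif decide (i ≠ j) && decide (i ≠ k) && decide (j ≠ k) then .not (.eq (dtT i j k) .zero)
      else tt))
    (bigR A.length fun u => bigR A.length fun v => bigR A.length fun a => bigR A.length fun b =>
      bif ent B u v && ent A a b && decide (u ≠ a) && decide (u ≠ b) && decide (v ≠ a) &&
        decide (v ≠ b) then .or (.lt .zero (.mul (dtT u v a) (dtT u v b)))
          (.lt .zero (.mul (dtT a b u) (dtT a b v))) else tt)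

theorem holds_body {n : ℕ} (G F : SimpleGraph (Fin n)) (w : List Bool → ℝ) :
    (body (adjMatrix G) (adjMatrix F)).Holds w ↔
      GP (fun i : Fin n => pos w i) ∧ NCD G F fun i : Fin n => pos w i := by
  simp only [body, Formula.Holds, holds_bigR, holds_cond, length_adjMatrix, Term.eval, eval_dtT,
    Bool.and_eq_true, decide_eq_true_eq, ent_adjMatrix, GP, NCD, NC, and_imp, Fin.val_ne_iff]
  refine and_congr_left' (and_congr_left' (forall₂_congr fun i j => ?_))
  simp only [pos, Prod.mk.injEq]
  exact not_imp_not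

theorem sat_body {n : ℕ} (G F : SimpleGraph (Fin n)) :
    (∃ w, (body (adjMatrix G) (adjMatrix F)).Holds w) ↔ ∃ p, GP p ∧ NCD G F p := by
  simp only [holds_body]
  refine ⟨fun ⟨w, h⟩ => ⟨_, h⟩, fun ⟨p, h⟩ => ?_⟩
  obtain ⟨w, hw⟩ := exists_valuation fun x : ℕ × Bool =>
    if h : x.1 < n then (bif x.2 then (p ⟨x.1, h⟩).1 else (p ⟨x.1, h⟩).2) else 0
  have : (fun i : Fin n => pos w i) = p := funext fun i => by simp [pos, hw]
  exact ⟨w, this ▸ h⟩

theorem gpp_mem : GPP ∈ ExistsR := by
  obtain ⟨d, hd, hd'⟩ := HasDec.bool.list.list.prod HasDec.bool.list.list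
  refine mem_ExistsR_of (fun x => bif x == enc (d x) && chkGraph (d x).1 && chkGraph (d x).2 &&
    (d x).2.length == (d x).1.length && chkLe (d x).1 (d x).2 then body (d x).1 (d x).2 else ff)
    (by unfold chkGraph chkLe body bigR dtT ent; fun_prop) fun x => ⟨fun h => ?_, fun ⟨w, h⟩ => ?_⟩
  · have h0 := h
    simp only [GPP, decide_eq_true_eq] at h0
    obtain ⟨n, G, F, -, rfl, -⟩ := h0
    obtain ⟨h1, h2⟩ := (GPP_encode G F).1 h
    have h3 : d (bitEncode (adjMatrix G, adjMatrix F)) = (adjMatrix G, adjMatrix F) := hd' _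
    have h4 : bitEncode (adjMatrix G, adjMatrix F) = enc (adjMatrix G, adjMatrix F) := rfl
    simp only [h3, chkGraph_adjMatrix, length_adjMatrix, (chkLe_iff G F).2 h1]
    simpa [h4] using (sat_body G F).2 h2
  · rw [Bool.cond_eq_ite] at h
    split_ifs at h with h1
    · simp only [Bool.and_eq_true, beq_iff_eq] at h1
      obtain ⟨⟨⟨⟨h1, h2⟩, h3⟩, h4⟩, h5⟩ := h1
      obtain ⟨G, hG⟩ := exists_graph h2 rfl
      obtain ⟨F, hF⟩ := exists_graph h3 h4
      generalize (d x).1.length = n at G F hG hF
      rw [← hG, ← hF] at h h5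
      rw [h1, show d x = (adjMatrix G, adjMatrix F) from Prod.ext hG.symm hF.symm, GPP_encode]
      exact ⟨(chkLe_iff G F).1 h5, (sat_body G F).1 ⟨w, h⟩⟩
    · exact absurd h (holds_ff w)

end Pool.Agent.P.MP_881548_lc
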