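import Pool.Agent.P.MP_881548_lc.Layout
import Pool.Agent.Lib.ETR.Hard

/-! The reduction, and hardness. -/

namespace Pool.Agent.P.MP_881548_lc

open Pool.Agent.Lib.ETR Pool.Agent.Lib.NP N487b59b3 N68a2faeb N793a5b8e Polynomial

theorem adjMatrix_inj {n n' : ℕ} {G : SimpleGraph (Fin n)} {G' : SimpleGraph (Fin n')}
    (h : adjMatrix G = adjMatrix G') : ∃ e : n = n', e ▸ G = G' := by
  obtain rfl : n = n' := by simpa [adjMatrix] using congrArg List.length h
  refine ⟨rfl, ?_⟩
  ext i j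
  have := congrFun (List.ofFn_injective (congrFun (List.ofFn_injective h) i)) j
  simpa using this

theorem GPP_encode {n : ℕ} (G F : SimpleGraph (Fin n)) :
    GPP (enc (adjMatrix G, adjMatrix F)) = true ↔ F ≤ G ∧ ∃ p, GP p ∧ NCD G F p := by
  simp only [GPP, decide_eq_true_eq, ← drawable_iff]
  constructor
  · rintro ⟨n', G', F', h1, h2, h3⟩
    obtain ⟨h4, h5⟩ := Prod.mk.inj (Enc.inj (a₂ := (adjMatrix G', adjMatrix F')) h2)
    obtain ⟨rfl, rfl⟩ := adjMatrix_inj h4
    obtain ⟨e, h6⟩ := adjMatrix_inj h5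
    obtain rfl : F = F' := h6
    exact ⟨h1, h3⟩
  · exact fun h => ⟨n, G, F, h.1, rfl, h.2⟩

section listGraph

variable {α : Type} (vs : List α) (ad : α → α → Bool) (hs : ∀ u v, ad u v = true → ad v u = true)
  (hi : ∀ u, ¬ ad u u = true)

/-- The graph on the positions of a list. -/
def listGraph : SimpleGraph (Fin vs.length) where
  Adj i j := ad (vs.get i) (vs.get j) = true
  symm := ⟨fun _ _ h => hs _ _ h⟩
  loopless := ⟨fun _ h => hi _ h⟩

theorem adjMatrix_listGraph :
    adjMatrix (listGraph vs ad hs hi) = vs.map fun u => vs.map fun v => ad u v := by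
  unfold adjMatrix
  apply List.ext_getElem (by simp)
  intro i h1 h2
  apply List.ext_getElem (by simp)
  intro j h3 h4
  simp [listGraph]

end listGraph

section dd

variable {α : Type} [DecidableEq α]

def dd (l : List α) : List α := l.foldl (fun s a => if a ∈ s then s else a :: s) []

theorem dd_aux (l s : List α) (hs : s.Nodup) :
    (l.foldl (fun s a => if a ∈ s then s else a :: s) s).Nodup ∧
      ∀ x, x ∈ l.foldl (fun s a => if a ∈ s then s else a :: s) s ↔ x ∈ s ∨ x ∈ l := by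
  induction l generalizing s with
  | nil => simpa using hs
  | cons a l ih =>
    rw [List.foldl_cons]
    split_ifs with h
    · refine ⟨(ih s hs).1, fun x => ?_⟩
      rw [(ih s hs).2, List.mem_cons]
      exact ⟨fun h => by tauto, fun h' => by rcases h' with h' | rfl | h' <;> tauto⟩
    · refine ⟨(ih _ (List.nodup_cons.2 ⟨h, hs⟩)).1, fun x => ?_⟩
      rw [(ih _ (List.nodup_cons.2 ⟨h, hs⟩)).2, List.mem_cons, List.mem_cons]
      tauto

theorem nodup_dd (l : List α) : (dd l).Nodup := (dd_aux l [] List.nodup_nil).1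

theorem mem_dd {l : List α} {x : α} : x ∈ dd l ↔ x ∈ l := by
  simpa [dd] using (dd_aux l [] List.nodup_nil).2 x

theorem pt_dd [Enc α] : PT (dd : List α → List α) := by
  refine PT.foldl_add (f := fun _ s a => if a ∈ s then s else a :: s) (by fun_prop) (by fun_prop)
    (by fun_prop) (2 * X + 1) fun l s a => ?_
  split_ifs <;> simp
  omega

end dd

variable {κ : Type} [DecidableEq κ]

def verts (S : Asg κ) : List (Lab κ) :=
  dd (S.flatMap fun c => (c.2.2, 0, 0) ::
    [1, 2].flatMap fun t => (List.range 9).map fun i => (c.2.1, t, i))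

theorem mem_verts {S : Asg κ} {x : Lab κ} : x ∈ verts S ↔ Mem S x := by
  obtain ⟨a, t, i⟩ := x
  simp only [verts, mem_dd, Mem, List.mem_flatMap, List.mem_cons, List.mem_map, List.mem_range,
    List.not_mem_nil, or_false, Prod.mk.injEq]
  constructor
  · rintro ⟨c, hc, h | ⟨t, ht, i, hi, rfl, rfl, rfl⟩⟩
    · exact .inl ⟨c, hc, h⟩
    · exact .inr ⟨c, hc, rfl, ht, hi⟩
  · rintro (⟨c, hc, h⟩ | ⟨c, hc, rfl, ht, hi⟩)
    · exact ⟨c, hc, .inl h⟩
    · exact ⟨c, hc, .inr ⟨t, ht, i, hi, rfl, rfl, rfl⟩⟩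

def innerB (l : List (ℕ × ℕ)) (u v : Lab κ) : Bool :=
  decide (u.1 = v.1) && decide (u.2.1 = v.2.1) && decide (u.2.1 ≠ 0) && decide ((u.2.2, v.2.2) ∈ l)

def linkB (S : Asg κ) (u v : Lab κ) : Bool :=
  decide (u.2.1 ≠ 0) && decide (v.2.1 = 0) &&
    [true, false].any fun s => decide ((s, u.1, v.1) ∈ S) && decide (u.2.2 ∈ sL s)

def adG (S : Asg κ) (u v : Lab κ) : Bool := innerB gL u v || linkB S u v || linkB S v u

theorem innerB_iff {l : List (ℕ × ℕ)} {u v : Lab κ} : innerB l u v = true ↔ Inner l u v := by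
  simp [innerB, Inner, and_assoc]

theorem adG_iff {S : Asg κ} {u v : Lab κ} : adG S u v = true ↔ AdG S u v := by
  have : ∀ u v : Lab κ, linkB S u v = true ↔ Link S u v := fun u v => by
    simp only [linkB, Link, Bool.and_eq_true, decide_eq_true_eq, List.any_eq_true, and_assoc]
    exact and_congr_right' (and_congr_right' (exists_congr fun s => by cases s <;> simp))
  simp only [adG, AdG, Bool.or_eq_true, innerB_iff, this, or_assoc]

def gF (S : Asg κ) : SimpleGraph (Fin (verts S).length) :=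
  listGraph (verts S) (innerB fL)
    (fun _ _ h => by
      obtain ⟨h1, h2, h3, h4⟩ := innerB_iff.1 h
      exact innerB_iff.2 ⟨h1.symm, h2.symm, h2 ▸ h3, (fL_lt _ h4).2.2.2.1⟩)
    fun _ h => (fL_lt _ (innerB_iff.1 h).2.2.2).2.2.1 rfl

def gG (S : Asg κ) : SimpleGraph (Fin (verts S).length) :=
  listGraph (verts S) (adG S)
    (fun _ _ h => by
      rcases adG_iff.1 h with ⟨h1, h2, h3, h4⟩ | h | h
      · exact adG_iff.2 (.inl ⟨h1.symm, h2.symm, h2 ▸ h3, (gL_lt _ h4).2.2.2⟩)
      · exact adG_iff.2 (.inr (.inr h))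
      · exact adG_iff.2 (.inr (.inl h)))
    fun _ h => by
      rcases adG_iff.1 h with h | h | h
      · exact (gL_lt _ h.2.2.2).2.2.1 rfl
      · exact h.1 h.2.1
      · exact h.1 h.2.1

theorem gF_le (S : Asg κ) : gF S ≤ gG S := fun _ _ h => by
  obtain ⟨h1, h2, h3, h4⟩ := innerB_iff.1 h
  exact adG_iff.2 (.inl ⟨h1, h2, h3, (fL_lt _ h4).2.2.2.2⟩)

theorem sat_iff (S : Asg κ) : S.Sat ↔ ∃ p, GP p ∧ NCD (gG S) (gF S) p := by
  have ginj : Function.Injective (verts S).get := List.nodup_iff_injective_get.1 (nodup_dd _)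
  constructor
  · intro h
    obtain ⟨P, hP⟩ := complete h (verts S) fun _ => mem_verts.1
    exact SepD.exists_gp (p := fun i => P ((verts S).get i)) fun u v a b h1 h2 h3 h4 h5 h6 =>
      hP _ (List.get_mem _ _) _ (List.get_mem _ _) _ (List.get_mem _ _) _ (List.get_mem _ _)
        (innerB_iff.1 h1) (adG_iff.1 h2) (ginj.ne h3) (ginj.ne h4) (ginj.ne h5) (ginj.ne h6)
  · rintro ⟨p, h1, h2⟩
    have hx : ∀ x, Mem S x → ∃ i, (verts S).get i = x := fun x hx =>
      List.mem_iff_get.1 (mem_verts.2 hx)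
    refine sound (P := Function.extend (verts S).get p 0) (fun a b c ha hb hc h3 h4 h5 => ?_)
      fun u v a b hu hv ha hb h3 h4 h5 h6 h7 h8 => ?_
    · obtain ⟨a, rfl⟩ := hx a ha
      obtain ⟨b, rfl⟩ := hx b hb
      obtain ⟨c, rfl⟩ := hx c hc
      simp only [ginj.extend_apply]
      exact h1.2 a b c (ginj.ne_iff.1 h3) (ginj.ne_iff.1 h4) (ginj.ne_iff.1 h5)
    · obtain ⟨u, rfl⟩ := hx u hu
      obtain ⟨v, rfl⟩ := hx v hv
      obtain ⟨a, rfl⟩ := hx a ha
      obtain ⟨b, rfl⟩ := hx b hb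
      simp only [ginj.extend_apply]
      exact h2 u v a b (innerB_iff.2 h3) (adG_iff.2 h4) (ginj.ne_iff.1 h5) (ginj.ne_iff.1 h6)
        (ginj.ne_iff.1 h7) (ginj.ne_iff.1 h8)

def red (S : Asg κ) : List Bool :=
  enc ((verts S).map fun u => (verts S).map fun v => adG S u v,
    (verts S).map fun u => (verts S).map fun v => innerB fL u v)

theorem pt_red [Enc κ] : PT (red : Asg κ → List Bool) := by
  have h1 : PT (verts : Asg κ → _) := pt_dd.comp (by fun_prop)
  unfold red adG innerB linkB sL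
  fun_prop

theorem gpp_hard : ∀ L ∈ ExistsR, ManyOneReducible L GPP := by
  refine ERHardPT.hard (asg_hard.reduce pt_red fun S => ?_)
  rw [show red S = enc (adjMatrix (gG S), adjMatrix (gF S)) by
    rw [gG, gF, adjMatrix_listGraph, adjMatrix_listGraph, red], GPP_encode, sat_iff]
  exact ⟨fun h => ⟨gF_le S, h⟩, fun h => h.2⟩

end Pool.Agent.P.MP_881548_lc
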